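import Mathlib

set_option autoImplicit false

/-!
# Weak oddness versus resistance: linear algebra over `ZMod 2`
-/

namespace Pool.Agent.WeakOdd

open Finset

open scoped Classical in
/-- The boundary of an edge weighting modulo 2. -/
noncomputable def bd {V E : Type} [Fintype E] (s t : E → V) (x : E → ZMod 2) (v : V) : ZMod 2 :=
  ∑ e, x e * ((if s e = v then 1 else 0) + (if t e = v then 1 else 0))

set_option linter.unusedSectionVars false

variable {V E : Type} [Fintype V] [Fintype E] (s t : E → V)

lemma bd_add (x y : E → ZMod 2) : bd s t (x + y) = bd s t x + bd s t y := by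
  classical
  funext v
  simp only [bd, Pi.add_apply, add_mul, sum_add_distrib]

lemma bd_smul (c : ZMod 2) (x : E → ZMod 2) : bd s t (c • x) = c • bd s t x := by
  classical
  funext v
  simp only [bd, Pi.smul_apply, smul_eq_mul, mul_sum, mul_assoc]

/-- The boundary as a linear map. -/
noncomputable def bdL : (E → ZMod 2) →ₗ[ZMod 2] (V → ZMod 2) where
  toFun := bd s t
  map_add' := bd_add s t
  map_smul' := bd_smul s t

lemma two_eq_zero' : (2 : ZMod 2) = 0 := by decide

lemma add_self_zmod2 (a : ZMod 2) : a + a = 0 := by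
  revert a; decide

lemma eq_of_add_eq_zero {a b : ZMod 2} (h : a + b = 0) : a = b := by
  revert a b; decide

lemma zmod2_cases (a : ZMod 2) : a = 0 ∨ a = 1 := by
  revert a; decide

/-- Pairing the boundary with a function on the vertices. -/
lemma sum_mul_bd (f : V → ZMod 2) (x : E → ZMod 2) :
    ∑ v, f v * bd s t x v = ∑ e, x e * (f (s e) + f (t e)) := by
  classical
  simp only [bd, mul_sum]
  rw [sum_comm]
  refine sum_congr rfl fun e _ => ?_
  have h1 : ∀ v : V, f v * (x e * ((if s e = v then 1 else 0) + (if t e = v then 1 else 0)))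
      = x e * ((if s e = v then f v else 0) + (if t e = v then f v else 0)) := by
    intro v
    split_ifs <;> ring
  simp only [h1, ← mul_sum, sum_add_distrib, sum_ite_eq, mem_univ, if_true]

/-- Duality: a vector is a boundary of a weighting supported on `A` as soon as it is orthogonal
to every function which is constant along the edges of `A`. -/
lemma exists_bd_eq (A : Set E) (g : V → ZMod 2)
    (h : ∀ f : V → ZMod 2, (∀ e ∈ A, f (s e) = f (t e)) → ∑ v, f v * g v = 0) :
    ∃ x : E → ZMod 2, (∀ e, e ∉ A → x e = 0) ∧ bd s t x = g := by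
  classical
  let P : Submodule (ZMod 2) (E → ZMod 2) :=
    { carrier := {x | ∀ e, e ∉ A → x e = 0}
      add_mem' := by
        intro a b ha hb e he
        simp [ha e he, hb e he]
      zero_mem' := by intro e _; rfl
      smul_mem' := by
        intro c a ha e he
        simp [ha e he] }
  by_contra hcon
  have hg : g ∉ P.map (bdL s t) := by
    intro hmem
    obtain ⟨x, hx, hxg⟩ := hmem
    exact hcon ⟨x, hx, hxg⟩
  obtain ⟨ψ, hψ, hker⟩ := Submodule.exists_dual_map_eq_bot_of_notMem hg inferInstance
  have hψker : ∀ x ∈ P, ψ (bd s t x) = 0 := by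
    intro x hx
    have : ψ (bd s t x) ∈ (P.map (bdL s t)).map ψ := ⟨bd s t x, ⟨x, hx, rfl⟩, rfl⟩
    rw [hker] at this
    exact (Submodule.mem_bot (ZMod 2)).mp this
  let f : V → ZMod 2 := fun v => ψ (Pi.single v 1)
  have hψf : ∀ w : V → ZMod 2, ψ w = ∑ v, f v * w v := by
    intro w
    have hw : w = ∑ v, w v • (Pi.single v (1 : ZMod 2) : V → ZMod 2) := by
      funext u
      simp [Finset.sum_apply, Pi.single_apply]
    conv_lhs => rw [hw]
    rw [map_sum]
    refine sum_congr rfl fun v _ => ?_
    rw [map_smul, smul_eq_mul, mul_comm]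
  have hf : ∀ e ∈ A, f (s e) = f (t e) := by
    intro e he
    have hP : (Pi.single e (1 : ZMod 2) : E → ZMod 2) ∈ P := by
      intro e' he'
      have : e' ≠ e := fun h => he' (h ▸ he)
      simp [this]
    have h1 := hψker _ hP
    rw [hψf, sum_mul_bd] at h1
    have h2 : ∑ e', (Pi.single e (1 : ZMod 2) : E → ZMod 2) e' * (f (s e') + f (t e'))
        = f (s e) + f (t e) := by
      rw [Finset.sum_eq_single e]
      · simp
      · intro b _ hb
        simp [hb]
      · intro h; exact absurd (mem_univ _) h
    rw [h2] at h1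
    exact eq_of_add_eq_zero h1
  apply hψ
  rw [hψf]
  exact h f hf

end Pool.Agent.WeakOdd
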