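import Mathlib

set_option autoImplicit false

namespace WeakOdd

open Finset Classical

variable {V E : Type} [Fintype V] [Fintype E]

/-- indicator of a predicate, with values in ZMod 2 -/
noncomputable def ind (p : E → Prop) : E → ZMod 2 := fun e => if p e then 1 else 0

/-- end vector of an edge -/
noncomputable def ev (s t : E → V) (e : E) : V → ZMod 2 :=
  fun v => (if s e = v then 1 else 0) + (if t e = v then 1 else 0)

/-- unit vector -/
noncomputable def dl (u : V) : V → ZMod 2 := fun v => if u = v then 1 else 0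

/-- boundary of a chain modulo 2 -/
noncomputable def bd (s t : E → V) (x : E → ZMod 2) : V → ZMod 2 :=
  fun v => ∑ e, x e * ev s t e v

lemma z2 (a : ZMod 2) : a = 0 ∨ a = 1 := by
  revert a; decide

lemma z2_add_self (a : ZMod 2) : a + a = 0 := by
  revert a; decide

lemma z2_ne {a : ZMod 2} (h : a ≠ 0) : a = 1 := (z2 a).resolve_left h

lemma fn_add_self {α : Type} (f : α → ZMod 2) : f + f = 0 := by
  funext a; exact z2_add_self _

lemma bd_add (s t : E → V) (x y : E → ZMod 2) : bd s t (x + y) = bd s t x + bd s t y := by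
  funext v
  simp [bd, add_mul, sum_add_distrib]

lemma ev_eq (s t : E → V) (e : E) : ev s t e = dl (s e) + dl (t e) := by
  funext v; simp [ev, dl]

/-- boundary counts parity of degree -/
lemma bd_card (s t : E → V) (hne : ∀ e, s e ≠ t e) (x : E → ZMod 2) (v : V) :
    bd s t x v = (((univ : Finset E).filter (fun e => x e ≠ 0 ∧ (s e = v ∨ t e = v))).card : ZMod 2) := by
  rw [bd, Finset.card_filter, Nat.cast_sum]
  refine Finset.sum_congr rfl fun e _ => ?_
  rcases z2 (x e) with h | h
  · simp [h]
  · rw [h]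
    by_cases h1 : s e = v
    · have h2 : t e ≠ v := fun h2 => hne e (h1.trans h2.symm)
      simp [ev, h1, h2]
    · by_cases h2 : t e = v
      · simp [ev, h1, h2]
      · simp [ev, h1, h2]

/-- the relation: joined by edges of colour 1 or 2 -/
def Rel (s t : E → V) (c : E → Fin 3) (u v : V) : Prop :=
  ∃ x : E → ZMod 2, (∀ e, c e = 0 → x e = 0) ∧ bd s t x = dl u + dl v

lemma bd_zero (s t : E → V) : bd s t (0 : E → ZMod 2) = 0 := by
  funext v; simp [bd]

lemma Rel.refl (s t : E → V) (c : E → Fin 3) (u : V) : Rel s t c u u :=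
  ⟨0, fun _ _ => rfl, by rw [bd_zero, fn_add_self]⟩

lemma Rel.symm {s t : E → V} {c : E → Fin 3} {u v : V} (h : Rel s t c u v) : Rel s t c v u := by
  obtain ⟨x, hx, hb⟩ := h
  exact ⟨x, hx, by rw [hb, add_comm]⟩

lemma Rel.trans {s t : E → V} {c : E → Fin 3} {u v w : V} (h : Rel s t c u v)
    (h' : Rel s t c v w) : Rel s t c u w := by
  obtain ⟨x, hx, hb⟩ := h
  obtain ⟨y, hy, hb'⟩ := h'
  refine ⟨x + y, fun e he => by simp [hx e he, hy e he], ?_⟩
  rw [bd_add, hb, hb']
  have : dl u + dl v + (dl v + dl w) = dl u + (dl v + dl v) + dl w := by ring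
  rw [this, fn_add_self, add_zero]

lemma bd_single (s t : E → V) (e : E) : bd s t (ind (fun f => f = e)) = ev s t e := by
  funext v
  simp [bd, ind]

lemma Rel.edge (s t : E → V) (c : E → Fin 3) {e : E} (h : c e ≠ 0) : Rel s t c (s e) (t e) := by
  refine ⟨ind (fun f => f = e), fun f hf => ?_, ?_⟩
  · have : f ≠ e := fun h' => h (h' ▸ hf)
    simp [ind, this]
  · rw [bd_single, ev_eq]

/-- parity vector of the edges of colour 1 or 2 -/
noncomputable def pbc (s t : E → V) (c : E → Fin 3) : V → ZMod 2 := bd s t (ind (fun e => c e ≠ 0))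

/-- hub vertices -/
def Hub (s t : E → V) (c : E → Fin 3) (v : V) : Prop :=
  ∃ u, Rel s t c v u ∧ pbc s t c u ≠ 0

lemma Hub.of_rel {s t : E → V} {c : E → Fin 3} {u v : V} (h : Rel s t c u v)
    (hu : Hub s t c u) : Hub s t c v := by
  obtain ⟨w, hw, hp⟩ := hu
  exact ⟨w, h.symm.trans hw, hp⟩

lemma hub_edge {s t : E → V} {c : E → Fin 3} {e : E} (h : c e ≠ 0) :
    Hub s t c (s e) ↔ Hub s t c (t e) :=
  ⟨fun h' => Hub.of_rel (Rel.edge s t c h) h', fun h' => Hub.of_rel (Rel.edge s t c h).symm h'⟩

/-- the equivalence relation as a setoid -/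
def stoid (s t : E → V) (c : E → Fin 3) : Setoid V where
  r := Rel s t c
  iseqv := ⟨Rel.refl s t c, Rel.symm, Rel.trans⟩

/-- representative map -/
noncomputable def rho (s t : E → V) (c : E → Fin 3) (v : V) : V :=
  if Hub s t c v then (Quotient.mk (stoid s t c) v).out else v

lemma rho_of_not_hub {s t : E → V} {c : E → Fin 3} {v : V} (h : ¬ Hub s t c v) :
    rho s t c v = v := by
  simp [rho, h]

lemma rho_rel (s t : E → V) (c : E → Fin 3) (v : V) : Rel s t c (rho s t c v) v := by
  by_cases h : Hub s t c v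
  · simp only [rho, h, if_true]
    exact @Quotient.mk_out V (stoid s t c) v
  · rw [rho_of_not_hub h]; exact Rel.refl s t c v

lemma hub_rho {s t : E → V} {c : E → Fin 3} {v : V} :
    Hub s t c (rho s t c v) ↔ Hub s t c v :=
  ⟨fun h => Hub.of_rel (rho_rel s t c v) h, fun h => Hub.of_rel (rho_rel s t c v).symm h⟩

lemma rho_eq_of_rel {s t : E → V} {c : E → Fin 3} {u v : V} (h : Rel s t c u v)
    (hu : Hub s t c u) : rho s t c u = rho s t c v := by
  have hv := Hub.of_rel h hu
  simp only [rho, hu, hv, if_true]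
  have : Quotient.mk (stoid s t c) u = Quotient.mk (stoid s t c) v :=
    Quotient.sound (s := stoid s t c) h
  rw [this]

/-- restricting a chain of colours 1, 2 to the hubs -/
lemma bd_restrict (s t : E → V) (c : E → Fin 3) (x : E → ZMod 2) (hx : ∀ e, c e = 0 → x e = 0) :
    bd s t (fun e => if Hub s t c (s e) then x e else 0) =
      fun v => if Hub s t c v then bd s t x v else 0 := by
  funext v
  by_cases hv : Hub s t c v
  · simp only [hv, if_true, bd]
    refine Finset.sum_congr rfl fun e _ => ?_
    by_cases he : c e = 0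
    · simp [hx e he]
    · by_cases h1 : Hub s t c (s e)
      · simp [h1]
      · have h2 : ¬ Hub s t c (t e) := fun h => h1 ((hub_edge he).2 h)
        have h3 : s e ≠ v := fun h => h1 (h ▸ hv)
        have h4 : t e ≠ v := fun h => h2 (h ▸ hv)
        simp [h1, ev, h3, h4]
  · simp only [hv, if_false, bd]
    refine Finset.sum_eq_zero fun e _ => ?_
    by_cases he : c e = 0
    · simp [hx e he]
    · by_cases h1 : Hub s t c (s e)
      · have h2 : Hub s t c (t e) := (hub_edge he).1 h1
        have h3 : s e ≠ v := fun h => hv (h ▸ h1)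
        have h4 : t e ≠ v := fun h => hv (h ▸ h2)
        simp [ev, h3, h4]
      · simp [h1]

/-- chains inside the hubs -/
def InB (s t : E → V) (c : E → Fin 3) (x : E → ZMod 2) : Prop :=
  ∀ e, x e ≠ 0 → c e ≠ 0 ∧ Hub s t c (s e)

lemma join_hub (s t : E → V) (c : E → Fin 3) (v : V) :
    ∃ x, InB s t c x ∧ bd s t x = dl v + dl (rho s t c v) := by
  by_cases h : Hub s t c v
  · obtain ⟨x, hx, hb⟩ := (rho_rel s t c v).symm
    refine ⟨fun e => if Hub s t c (s e) then x e else 0, fun e he => ?_, ?_⟩
    · by_cases h1 : Hub s t c (s e)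
      · refine ⟨fun h0 => ?_, h1⟩
        simp [hx e h0] at he
      · simp [h1] at he
    · rw [bd_restrict s t c x hx, hb]
      funext w
      by_cases hw : Hub s t c w
      · simp [hw]
      · have h1 : v ≠ w := fun h' => hw (h' ▸ h)
        have h2 : rho s t c v ≠ w := fun h' => hw (h' ▸ hub_rho.2 h)
        simp [hw, dl, h1, h2]
  · refine ⟨0, fun e he => absurd rfl he, ?_⟩
    rw [rho_of_not_hub h, bd_zero, fn_add_self]

lemma bd_smul (s t : E → V) (a : ZMod 2) (x : E → ZMod 2) : bd s t (a • x) = a • bd s t x := by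
  funext v
  simp [bd, Finset.mul_sum, mul_assoc]

lemma bd_sum {ι : Type} (s t : E → V) (A : Finset ι) (x : ι → E → ZMod 2) :
    bd s t (∑ i ∈ A, x i) = ∑ i ∈ A, bd s t (x i) := by
  induction A using Finset.induction_on with
  | empty => simp [bd_zero]
  | insert a A ha ih => rw [Finset.sum_insert ha, Finset.sum_insert ha, bd_add, ih]

/-- vectors whose push forward along rho vanishes are boundaries of hub chains -/
lemma ker_push (s t : E → V) (c : E → Fin 3) (y : V → ZMod 2)
    (hy : ∀ w, ∑ v, y v * dl (rho s t c v) w = 0) :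
    ∃ x, InB s t c x ∧ bd s t x = y := by
  choose f hf hb using join_hub s t c
  refine ⟨∑ v, y v • f v, fun e he => ?_, ?_⟩
  · rw [Finset.sum_apply] at he
    obtain ⟨v, _, hv⟩ := Finset.exists_ne_zero_of_sum_ne_zero he
    refine hf v e fun h => hv ?_
    simp [h]
  · rw [bd_sum]
    funext w
    rw [Finset.sum_apply]
    have : ∀ v, bd s t (y v • f v) w = y v * dl v w + y v * dl (rho s t c v) w := by
      intro v
      rw [bd_smul, hb v]
      simp [mul_add]
    simp only [this]
    rw [Finset.sum_add_distrib, hy w, add_zero]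
    simp [dl]

end WeakOdd
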