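import Pool.Agent.Lib.MP_0cde83_co.Core

set_option autoImplicit false
set_option linter.unusedSectionVars false

namespace WeakOdd

open Finset Classical

variable {V E : Type} [Fintype V] [Fintype E]

/-- class sums of boundaries of chains of colour 1, 2 vanish -/
lemma class_sum (s t : E → V) (c : E → Fin 3) (x : E → ZMod 2) (hx : ∀ e, c e = 0 → x e = 0)
    (w : V) : ∑ v ∈ (univ : Finset V).filter (fun v => rho s t c v = w ∧ Hub s t c v), bd s t x v = 0 := by
  simp only [bd]
  rw [Finset.sum_comm]
  refine Finset.sum_eq_zero fun e _ => ?_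
  by_cases he : c e = 0
  · simp [hx e he]
  · rw [← Finset.mul_sum]
    have : ∑ v ∈ (univ : Finset V).filter (fun v => rho s t c v = w ∧ Hub s t c v), ev s t e v = 0 := by
      simp only [ev]
      rw [Finset.sum_add_distrib, Finset.sum_ite_eq, Finset.sum_ite_eq]
      simp only [Finset.mem_filter, Finset.mem_univ, true_and]
      by_cases h1 : Hub s t c (s e)
      · have h2 := (hub_edge he).1 h1
        have h3 := rho_eq_of_rel (Rel.edge s t c he) h1
        rw [h3]
        by_cases h4 : rho s t c (t e) = w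
        · simp [h1, h2, h4]; decide
        · simp [h4]
      · have h2 : ¬ Hub s t c (t e) := fun h => h1 ((hub_edge he).2 h)
        simp [h1, h2]
    rw [this, mul_zero]

lemma two_le_card_of_sum {ι : Type} (A : Finset ι) (f : ι → ZMod 2) (h0 : ∑ i ∈ A, f i = 0)
    (h1 : ∃ i ∈ A, f i ≠ 0) : 2 ≤ (A.filter (fun i => f i ≠ 0)).card := by
  have h2 : ∑ i ∈ A, f i = ((A.filter (fun i => f i ≠ 0)).card : ZMod 2) := by
    rw [Finset.card_filter, Nat.cast_sum]
    refine Finset.sum_congr rfl fun i _ => ?_
    rcases z2 (f i) with h | h <;> simp [h]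
  obtain ⟨i, hi, hf⟩ := h1
  have h3 : 0 < (A.filter (fun i => f i ≠ 0)).card :=
    Finset.card_pos.2 ⟨i, Finset.mem_filter.2 ⟨hi, hf⟩⟩
  rw [h0] at h2
  have h4 : (A.filter (fun i => f i ≠ 0)).card % 2 = 0 := by
    have := (ZMod.natCast_eq_zero_iff _ 2).1 h2.symm
    omega
  omega

/-- each hub representative sees at least two odd vertices -/
lemma hub_reps (s t : E → V) (c : E → Fin 3) (D : Finset V) (hD : ∀ v, pbc s t c v ≠ 0 → v ∈ D)
    (W : Finset V) (hW : ∀ w ∈ W, Hub s t c w ∧ rho s t c w = w) :
    2 * W.card ≤ (D.filter (fun v => Hub s t c v)).card := by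
  have key : ∀ w ∈ W, 2 ≤ ((D.filter (fun v => Hub s t c v)).filter (fun v => rho s t c v = w)).card := by
    intro w hw
    obtain ⟨hh, hr⟩ := hW w hw
    have h0 := class_sum s t c (ind (fun e => c e ≠ 0)) (fun e he => by simp [ind, he]) w
    obtain ⟨u, hu, hp⟩ := id hh
    have hub_u : Hub s t c u := Hub.of_rel hu hh
    have hru : rho s t c u = w := by rw [← rho_eq_of_rel hu hh, hr]
    have h2 := two_le_card_of_sum _ _ h0 ⟨u, Finset.mem_filter.2 ⟨Finset.mem_univ _, hru, hub_u⟩, hp⟩
    refine h2.trans (Finset.card_le_card fun v hv => ?_)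
    simp only [Finset.mem_filter, Finset.mem_univ, true_and] at hv ⊢
    exact ⟨⟨hD v hv.2, hv.1.2⟩, hv.1.1⟩
  calc 2 * W.card = ∑ w ∈ W, 2 := by simp [mul_comm]
    _ ≤ ∑ w ∈ W, ((D.filter (fun v => Hub s t c v)).filter (fun v => rho s t c v = w)).card :=
        Finset.sum_le_sum key
    _ = (((D.filter (fun v => Hub s t c v)).filter (fun v => rho s t c v ∈ W))).card := by
        rw [Finset.card_eq_sum_card_fiberwise (f := fun v => rho s t c v) (t := W)
          (s := ((D.filter (fun v => Hub s t c v)).filter (fun v => rho s t c v ∈ W)))]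
        · refine Finset.sum_congr rfl fun w hw => ?_
          congr 1
          ext v
          simp only [Finset.mem_filter]
          constructor
          · rintro ⟨h1, h2⟩
            exact ⟨⟨h1, h2 ▸ hw⟩, h2⟩
          · rintro ⟨⟨h1, _⟩, h2⟩
            exact ⟨h1, h2⟩
        · intro v hv
          exact (Finset.mem_filter.1 hv).2
    _ ≤ _ := Finset.card_le_card (Finset.filter_subset _ _)

/-- admissible pairs -/
structure Good (s t : E → V) (c : E → Fin 3) (x y : E → ZMod 2) : Prop where
  hx : ∀ e, x e ≠ 0 → c e = 0 ∨ (c e = 1 ∧ ¬ Hub s t c (s e))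
  hy : InB s t c y
  hb : bd s t x + bd s t y = bd s t (ind (fun e => c e ≠ 1))

lemma exists_good (s t : E → V) (c : E → Fin 3) : ∃ x y, Good s t c x y := by
  refine ⟨ind (fun e => c e = 0 ∨ (c e = 1 ∧ ¬ Hub s t c (s e))),
    ind (fun e => c e = 2 ∧ Hub s t c (s e)), ?_, ?_, ?_⟩
  · intro e he
    by_contra h
    exact he (by simp only [ind, h, if_false])
  · intro e he
    by_cases h : c e = 2 ∧ Hub s t c (s e)
    · exact ⟨by rw [h.1]; decide, h.2⟩
    · exact absurd (by simp only [ind, h, if_false]) he
  · have h1 : ind (fun e => c e ≠ 1) =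
        ind (fun e => c e = 0 ∨ (c e = 1 ∧ ¬ Hub s t c (s e))) + ind (fun e => c e = 2 ∧ Hub s t c (s e))
          + (ind (fun e => c e ≠ 0) + fun e => if Hub s t c (s e) then ind (fun e => c e ≠ 0) e else 0) := by
      funext e
      by_cases h : Hub s t c (s e)
      · have h3 : c e = 0 ∨ c e = 1 ∨ c e = 2 := by
          generalize c e = k; fin_cases k <;> simp
        rcases h3 with h3 | h3 | h3 <;> simp [ind, h, h3] <;> decide
      · have h3 : c e = 0 ∨ c e = 1 ∨ c e = 2 := by
          generalize c e = k; fin_cases k <;> simp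
        rcases h3 with h3 | h3 | h3 <;> simp [ind, h, h3] <;> decide
    rw [h1, bd_add, bd_add, bd_add, bd_restrict s t c _ (fun e he => by simp [ind, he])]
    have h2 : (bd s t (ind fun e => c e ≠ 0) + fun v =>
        if Hub s t c v then bd s t (ind fun e => c e ≠ 0) v else 0) = 0 := by
      funext v
      by_cases h : Hub s t c v
      · simp only [Pi.add_apply, h, if_true, Pi.zero_apply]
        exact z2_add_self _
      · simp only [Pi.add_apply, h, if_false, Pi.zero_apply, add_zero]
        by_contra h4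
        exact h ⟨v, Rel.refl s t c v, h4⟩
    rw [h2, add_zero]

end WeakOdd
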