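import Pool.Agent.Lib.MP_0cde83_co.Min

set_option autoImplicit false
set_option linter.unusedSectionVars false

namespace WeakOdd

open Finset Classical

variable {V E : Type} [Fintype V] [Fintype E]

/-- odd components contain a vertex of even degree in any part of the edge set -/
lemma odd_comps (s t : E → V) (hne : ∀ e, s e ≠ t e) (f a : E → ZMod 2)
    (ha : ∀ e, a e ≠ 0 → f e ≠ 0) :
    Set.ncard {C : (SimpleGraph.fromRel
        (fun x y : V => ∃ e : E, e ∈ {e : E | f e ≠ 0} ∧ s e = x ∧ t e = y)).ConnectedComponent |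
          Odd (SimpleGraph.ConnectedComponent.supp C).ncard} ≤
      ((univ : Finset V).filter (fun v => bd s t a v = 0)).card := by
  set G := SimpleGraph.fromRel
        (fun x y : V => ∃ e : E, e ∈ {e : E | f e ≠ 0} ∧ s e = x ∧ t e = y) with hG
  have hadj : ∀ e, f e ≠ 0 → G.Adj (s e) (t e) := by
    intro e he
    rw [hG, SimpleGraph.fromRel_adj]
    exact ⟨hne e, Or.inl ⟨e, he, rfl, rfl⟩⟩
  have hsub : {C : G.ConnectedComponent | Odd (SimpleGraph.ConnectedComponent.supp C).ncard} ⊆
      (fun v => G.connectedComponentMk v) '' {v : V | bd s t a v = 0} := by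
    intro C hC
    by_contra hcon
    have h1 : ∀ v ∈ C.supp, bd s t a v = 1 := by
      intro v hv
      refine z2_ne fun h0 => hcon ⟨v, h0, ?_⟩
      exact hv
    have h2 : ∑ v ∈ (univ : Finset V).filter (fun v => v ∈ C.supp), bd s t a v = 0 := by
      simp only [bd]
      rw [Finset.sum_comm]
      refine Finset.sum_eq_zero fun e _ => ?_
      by_cases he : a e = 0
      · simp [he]
      · have h3 := (hadj e (ha e he)).reachable
        have h4 : s e ∈ C.supp ↔ t e ∈ C.supp := by
          simp only [SimpleGraph.ConnectedComponent.mem_supp_iff]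
          rw [SimpleGraph.ConnectedComponent.sound h3]
        rw [← Finset.mul_sum]
        have : ∑ v ∈ (univ : Finset V).filter (fun v => v ∈ C.supp), ev s t e v = 0 := by
          simp only [ev]
          rw [Finset.sum_add_distrib, Finset.sum_ite_eq, Finset.sum_ite_eq]
          simp only [Finset.mem_filter, Finset.mem_univ, true_and, h4]
          exact z2_add_self _
        rw [this, mul_zero]
    have h3 : ∑ v ∈ (univ : Finset V).filter (fun v => v ∈ C.supp), bd s t a v =
        ((C.supp).ncard : ZMod 2) := by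
      rw [Finset.sum_congr rfl fun v hv => h1 v (Finset.mem_filter.1 hv).2]
      rw [Finset.sum_const, nsmul_one]
      congr 1
      rw [← Set.ncard_coe_finset]
      congr 1
      ext v; simp
    rw [h2] at h3
    have h4 := (ZMod.natCast_eq_zero_iff _ 2).1 h3.symm
    have h5 : Odd (C.supp).ncard := hC
    rw [Nat.odd_iff] at h5
    omega
  calc Set.ncard {C : G.ConnectedComponent | Odd (SimpleGraph.ConnectedComponent.supp C).ncard}
      ≤ Set.ncard ((fun v => G.connectedComponentMk v) '' {v : V | bd s t a v = 0}) :=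
        Set.ncard_le_ncard hsub (Set.toFinite _)
    _ ≤ Set.ncard {v : V | bd s t a v = 0} := Set.ncard_image_le (Set.toFinite _)
    _ = _ := by
        rw [← Set.ncard_coe_finset]
        congr 1
        ext v; simp

/-- extension of the colouring at one vertex -/
lemma extend_at (s t : E → V) (v : V) (h3 : Set.ncard {e : E | s e = v ∨ t e = v} = 3)
    (S : Finset E) (c : E → Fin 3)
    (hc : ∀ e f : E, e ∉ S → f ∉ S → e ≠ f →
          (s e = s f ∨ s e = t f ∨ t e = s f ∨ t e = t f) → c e ≠ c f) :
    ∃ g : E → Fin 3, (∀ e, e ∉ S → (s e = v ∨ t e = v) → g e = c e) ∧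
      (∀ e f, (s e = v ∨ t e = v) → (s f = v ∨ t f = v) → g e = g f → e = f) := by
  let I : Finset E := (univ : Finset E).filter (fun e => s e = v ∨ t e = v)
  have hI : I.card = 3 := by
    rw [← h3, ← Set.ncard_coe_finset]
    congr 1
    ext e; simp [I]
  have hmem : ∀ e, e ∈ I ↔ (s e = v ∨ t e = v) := fun e => by simp [I]
  have h1 : Fintype.card I = (univ : Finset (Fin 3)).card := by simp [hI]
  obtain ⟨g, hg⟩ := Finset.exists_equiv_extend_of_card_eq h1
    (s := (univ : Finset I).filter (fun e => e.1 ∉ S)) (f := fun e : I => c e.1)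
    (Finset.subset_univ _) (by
      intro e he f hf hef
      simp only [Finset.coe_filter, Finset.mem_univ, true_and, Set.mem_setOf_eq] at he hf
      by_contra hne
      have h2 : e.1 ≠ f.1 := fun h => hne (Subtype.ext h)
      refine hc e.1 f.1 he hf h2 ?_ hef
      have h4 := (hmem e.1).1 e.2
      have h5 := (hmem f.1).1 f.2
      rcases h4 with h4 | h4 <;> rcases h5 with h5 | h5 <;> simp [h4, h5])
  refine ⟨fun e => if he : e ∈ I then (g ⟨e, he⟩).1 else 0, fun e heS he => ?_, fun e f he hf hef => ?_⟩
  · have h2 := (hmem e).2 he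
    simp only [h2, dif_pos]
    exact hg ⟨e, h2⟩ (by simp [heS])
  · have h2 := (hmem e).2 he
    have h4 := (hmem f).2 hf
    simp only [h2, h4, dif_pos] at hef
    have h5 := g.injective (Subtype.ext hef)
    exact congrArg Subtype.val h5

/-- total colouring with few bad vertices -/
lemma total (s t : E → V) (h3 : ∀ v : V, Set.ncard {e : E | s e = v ∨ t e = v} = 3)
    (S : Finset E) (c : E → Fin 3)
    (hc : ∀ e f : E, e ∉ S → f ∉ S → e ≠ f →
          (s e = s f ∨ s e = t f ∨ t e = s f ∨ t e = t f) → c e ≠ c f) :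
    ∃ c' : E → Fin 3, ∀ v, v ∉ S.image s → ∀ k : Fin 3,
      ((univ : Finset E).filter (fun e => c' e = k ∧ (s e = v ∨ t e = v))).card = 1 := by
  choose g hg1 hg2 using fun v => extend_at s t v (h3 v) S c hc
  refine ⟨fun e => if e ∈ S then g (t e) e else c e, fun v hv k => ?_⟩
  have hcv : ∀ e, (s e = v ∨ t e = v) → (if e ∈ S then g (t e) e else c e) = g v e := by
    intro e he
    by_cases heS : e ∈ S
    · have h1 : s e ≠ v := fun h => hv (Finset.mem_image.2 ⟨e, heS, h⟩)
      have h2 : t e = v := he.resolve_left h1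
      simp [heS, h2]
    · simp [heS, hg1 v e heS he]
  let I : Finset E := (univ : Finset E).filter (fun e => s e = v ∨ t e = v)
  have hI : I.card = 3 := by
    rw [← h3 v, ← Set.ncard_coe_finset]
    congr 1
    ext e; simp [I]
  have hmem : ∀ e, e ∈ I ↔ (s e = v ∨ t e = v) := fun e => by simp [I]
  have hinj : Set.InjOn (g v) (I : Set E) := by
    intro e he f hf hef
    exact hg2 v e f ((hmem e).1 he) ((hmem f).1 hf) hef
  have himg : I.image (g v) = univ := by
    rw [← Finset.card_eq_iff_eq_univ, Finset.card_image_of_injOn hinj, hI]; simp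
  have hk : k ∈ I.image (g v) := by rw [himg]; exact Finset.mem_univ _
  obtain ⟨e, he, hek⟩ := Finset.mem_image.1 hk
  rw [Finset.card_eq_one]
  refine ⟨e, ?_⟩
  ext f
  simp only [Finset.mem_filter, Finset.mem_univ, true_and, Finset.mem_singleton]
  constructor
  · rintro ⟨h1, h2⟩
    rw [hcv f h2] at h1
    exact hinj ((hmem f).2 h2) he (h1.trans hek.symm)
  · rintro rfl
    have h2 := (hmem f).1 he
    exact ⟨by rw [hcv f h2, hek], h2⟩

/-- weak oddness is at most twice the resistance -/
theorem weak_oddness_le (s t : E → V) (hne : ∀ e, s e ≠ t e)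
    (h3 : ∀ v : V, Set.ncard {e : E | s e = v ∨ t e = v} = 3) (S : Finset E)
    (hc : ∃ c : E → Fin 3, ∀ e f : E, e ∉ S → f ∉ S → e ≠ f →
          (s e = s f ∨ s e = t f ∨ t e = s f ∨ t e = t f) → c e ≠ c f) :
    ∃ F : Set E,
      (∀ v : V, Even (Set.ncard {e : E | e ∈ F ∧ (s e = v ∨ t e = v)})) ∧
        Set.ncard {C : (SimpleGraph.fromRel
              (fun x y : V => ∃ f : E, f ∈ F ∧ s f = x ∧ t f = y)).ConnectedComponent |
            Odd (SimpleGraph.ConnectedComponent.supp C).ncard} ≤ 2 * S.card := by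
  obtain ⟨c, hc⟩ := hc
  obtain ⟨c', hc'⟩ := total s t h3 S c hc
  obtain ⟨f, a, haf, hf, hcard⟩ := core s t hne c' (S.image s) hc'
  refine ⟨{e | f e ≠ 0}, fun v => ?_, ?_⟩
  · have h1 := hf v
    rw [bd_card s t hne, ZMod.natCast_eq_zero_iff] at h1
    have h2 : Set.ncard {e : E | e ∈ {e | f e ≠ 0} ∧ (s e = v ∨ t e = v)} =
        ((univ : Finset E).filter (fun e => f e ≠ 0 ∧ (s e = v ∨ t e = v))).card := by
      rw [← Set.ncard_coe_finset]
      congr 1
      ext e; simp
    rw [h2, even_iff_two_dvd]
    exact h1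
  · refine (odd_comps s t hne f a haf).trans (hcard.trans ?_)
    have := Finset.card_image_le (s := S) (f := s)
    omega

end WeakOdd
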