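import Pool.Agent.Lib.MP_0cde83_co.Red

set_option autoImplicit false
set_option linter.unusedSectionVars false

/-!
# Weak oddness versus resistance: the main recolouring theorem
-/

namespace Pool.Agent.WeakOdd

open Finset
open scoped Classical

noncomputable section

variable {V E : Type} [Fintype V] [Fintype E] {s t : E → V}

lemma nE01_add (hc : Cubic s t) (φ : E → Fin 3) (v : V) :
    nE s t (fun e => φ e = 0 ∨ φ e = 1) v + nE s t (fun e => φ e = 2) v = 3 := by
  have hv := hc v
  rw [nE_split s t (fun _ => True) (fun e => φ e = 2)] at hv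
  have h1 : (fun e => True ∧ φ e = 2) = (fun e => φ e = 2) := by funext e; simp
  have h2 : (fun e => True ∧ ¬ φ e = 2) = (fun e => φ e = 0 ∨ φ e = 1) := by
    funext e
    generalize φ e = c
    revert c
    decide
  rw [h1, h2] at hv
  omega

lemma cast_nE01 (hc : Cubic s t) (φ : E → Fin 3) (v : V) :
    (nE s t (fun e => φ e = 0 ∨ φ e = 1) v : ZMod 2) = if QQ s t φ v then 1 else 0 := by
  have h := nE01_add hc φ v
  unfold QQ
  split_ifs with h2
  · have : Odd (nE s t (fun e => φ e = 0 ∨ φ e = 1) v) := by
      rw [Nat.even_iff] at h2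
      rw [Nat.odd_iff]
      omega
    exact (ZMod.natCast_eq_one_iff_odd).mpr this
  · have : Even (nE s t (fun e => φ e = 0 ∨ φ e = 1) v) := by
      rw [Nat.even_iff] at h2
      rw [Nat.even_iff]
      omega
    exact (ZMod.natCast_eq_zero_iff_even).mpr this

/-- Every red component in `RC` has at least two vertices of `QQ`. -/
lemma two_mul_card_RC (hl : ∀ e, s e ≠ t e) (hc : Cubic s t) (φ : E → Fin 3) :
    2 * (RC s t φ).card ≤ (univ.filter (QQ s t φ)).card := by
  have h0 : (univ.filter (QQ s t φ)).card = ∑ K ∈ RC s t φ,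
      ((univ.filter (QQ s t φ)).filter
        (fun v => (red s t φ).connectedComponentMk v = K)).card := by
    unfold RC
    exact Finset.card_eq_sum_card_image _ _
  rw [h0, mul_comm, ← smul_eq_mul, ← Finset.sum_const]
  refine Finset.sum_le_sum fun K hK => ?_
  have hne : ((univ.filter (QQ s t φ)).filter
        (fun v => (red s t φ).connectedComponentMk v = K)).Nonempty := by
    unfold RC at hK
    rw [Finset.mem_image] at hK
    obtain ⟨u, hu, huK⟩ := hK
    exact ⟨u, by simp only [mem_filter]; exact ⟨by simpa using hu, huK⟩⟩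
  have heven : Even ((univ.filter (QQ s t φ)).filter
        (fun v => (red s t φ).connectedComponentMk v = K)).card := by
    rw [← ZMod.natCast_eq_zero_iff_even]
    have h1 : (((univ.filter (QQ s t φ)).filter
        (fun v => (red s t φ).connectedComponentMk v = K)).card : ZMod 2)
        = ∑ v, (if (red s t φ).connectedComponentMk v = K then (1 : ZMod 2) else 0) *
          bd s t (ind (fun e => φ e = 0 ∨ φ e = 1)) v := by
      rw [Finset.filter_filter, ← Finset.sum_boole]
      refine sum_congr rfl fun v _ => ?_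
      rw [bd_ind s t hl, cast_nE01 hc]
      by_cases h1 : QQ s t φ v <;> by_cases h2 : (red s t φ).connectedComponentMk v = K <;>
        simp [h1, h2]
    rw [h1, sum_mul_bd]
    refine Finset.sum_eq_zero fun e _ => ?_
    by_cases he : φ e = 0 ∨ φ e = 1
    · have : (red s t φ).connectedComponentMk (s e) = (red s t φ).connectedComponentMk (t e) :=
        SimpleGraph.ConnectedComponent.sound (red_adj hl he).reachable
      rw [this, add_self_zmod2, mul_zero]
    · simp [ind, he]
  have hpos := hne.card_pos
  rw [Nat.even_iff] at heven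
  omega

/-- Existence of the joining set. -/
lemma exists_join (hl : ∀ e, s e ≠ t e) (hc : Cubic s t) (φ : E → Fin 3) :
    ∃ x : E → ZMod 2, (∀ e, (φ e = 1 ∧ ¬ VR s t φ (s e)) → x e = 0) ∧
      bd s t x = bd s t (ind (fun e => φ e ≠ 0)) := by
  have key := exists_bd_eq s t {e | ¬ (φ e = 1 ∧ ¬ VR s t φ (s e))}
    (bd s t (ind (fun e => φ e ≠ 0))) ?_
  · obtain ⟨x, hx, hx'⟩ := key
    exact ⟨x, fun e he => hx e (by simpa using he), hx'⟩
  intro f hf
  simp only [Set.mem_ofPred_eq] at hf
  rw [sum_mul_bd]
  have h1 : ∑ e, ind (fun e => φ e ≠ 0) e * (f (s e) + f (t e))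
      = ∑ e, ind (fun e => φ e = 0 ∨ φ e = 1) e * (f (s e) + f (t e)) := by
    refine sum_congr rfl fun e _ => ?_
    by_cases h1 : φ e = 1
    · simp [ind, h1]
    · have := hf e (by tauto)
      rw [this, add_self_zmod2, mul_zero, mul_zero]
  rw [h1, ← sum_mul_bd]
  let f' : V → ZMod 2 := fun v => if VR s t φ v then f v else 0
  have h2 : ∑ v, f v * bd s t (ind (fun e => φ e = 0 ∨ φ e = 1)) v
      = ∑ v, f' v * bd s t (ind (fun e => φ e = 0 ∨ φ e = 1)) v := by
    refine sum_congr rfl fun v _ => ?_
    by_cases hv : VR s t φ v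
    · simp [f', hv]
    · have hq : ¬ QQ s t φ v := fun h => hv (QQ_VR h)
      rw [bd_ind s t hl, cast_nE01 hc]
      simp [hq]
  rw [h2, sum_mul_bd]
  refine Finset.sum_eq_zero fun e _ => ?_
  by_cases he : φ e = 0 ∨ φ e = 1
  · by_cases hv : VR s t φ (s e)
    · have hv' := (VR_iff hl he).mp hv
      have := hf e (by tauto)
      have h3 : f' (s e) = f' (t e) := by
        simp only [f', hv, hv', if_true]
        exact this
      rw [h3, add_self_zmod2, mul_zero]
    · have hv' : ¬ VR s t φ (t e) := fun h => hv ((VR_iff hl he).mpr h)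
      simp [f', hv, hv']
  · simp [ind, he]

/-- The blue edges: colour 2, or colour 0 outside the red components. -/
def BB (s t : E → V) (φ : E → Fin 3) (e : E) : Prop :=
  φ e = 2 ∨ (φ e = 0 ∧ ¬ VR s t φ (s e))

/-- The key counting bound for a minimal joining set. -/
lemma card_le_of_minimal (φ : E → Fin 3)
    (x : E → ZMod 2) (hx : ∀ e, (φ e = 1 ∧ ¬ VR s t φ (s e)) → x e = 0)
    (hmin : ∀ x' : E → ZMod 2, (∀ e, (φ e = 1 ∧ ¬ VR s t φ (s e)) → x' e = 0) →
      bd s t x' = bd s t x →
      (univ.filter fun e => BB s t φ e ∧ x e ≠ 0).card ≤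
        (univ.filter fun e => BB s t φ e ∧ x' e ≠ 0).card) :
    (univ.filter fun e => BB s t φ e ∧ x e ≠ 0).card ≤
      (univ.filter fun v => ¬ VR s t φ v ∧ nE s t (fun e => BB s t φ e ∧ x e ≠ 0) v ≠ 0).card
      + (RC s t φ).card := by
  set JB : Finset E := univ.filter fun e => BB s t φ e ∧ x e ≠ 0 with hJB
  set Vb : Finset V :=
    univ.filter fun v => ¬ VR s t φ v ∧ nE s t (fun e => BB s t φ e ∧ x e ≠ 0) v ≠ 0 with hVb
  have memJB : ∀ e, e ∈ JB ↔ (BB s t φ e ∧ x e ≠ 0) := by intro e; simp [hJB]
  -- extension by zero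
  let ext : (JB → ZMod 2) → (E → ZMod 2) := fun z e => if h : e ∈ JB then z ⟨e, h⟩ else 0
  let L : (JB → ZMod 2) → ((Vb → ZMod 2) × (RC s t φ → ZMod 2)) := fun z =>
    (fun v => bd s t (ext z) v,
     fun K => ∑ v ∈ univ.filter (fun v => (red s t φ).connectedComponentMk v = K.1),
      bd s t (ext z) v)
  have hinj : Function.Injective L := by
    intro z1 z2 h12
    let z : E → ZMod 2 := ext z1 + ext z2
    have hzbd : bd s t z = bd s t (ext z1) + bd s t (ext z2) := bd_add s t _ _
    have hzJB : ∀ e, e ∉ JB → z e = 0 := by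
      intro e he
      simp [z, ext, he]
    have hzVb : ∀ v ∈ Vb, bd s t z v = 0 := by
      intro v hv
      have h1 := congrArg Prod.fst h12
      have h2 := congrFun h1 ⟨v, hv⟩
      rw [hzbd]
      simp only [L] at h2
      rw [Pi.add_apply, h2, add_self_zmod2]
    have hzK : ∀ K ∈ RC s t φ,
        ∑ v ∈ univ.filter (fun v => (red s t φ).connectedComponentMk v = K), bd s t z v = 0 := by
      intro K hK
      have h1 := congrArg Prod.snd h12
      have h2 := congrFun h1 ⟨K, hK⟩
      simp only [L] at h2
      rw [hzbd]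
      simp only [Pi.add_apply, Finset.sum_add_distrib]
      rw [h2, add_self_zmod2]
    have hz0 : ∀ v, ¬ VR s t φ v → bd s t z v = 0 := by
      intro v hv
      by_cases hvb : v ∈ Vb
      · exact hzVb v hvb
      · have h1 : nE s t (fun e => BB s t φ e ∧ x e ≠ 0) v = 0 := by
          by_contra h
          exact hvb (by simp only [hVb, mem_filter, mem_univ, true_and]; exact ⟨hv, h⟩)
        rw [nE_eq_zero_iff] at h1
        unfold bd
        refine Finset.sum_eq_zero fun e _ => ?_
        by_cases he : e ∈ JB
        · have h2 : ¬ (s e = v ∨ t e = v) := h1 e ((memJB e).mp he)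
          push Not at h2
          simp [h2.1, h2.2]
        · rw [hzJB e he, zero_mul]
    -- the boundary of `z` is a boundary of a red set
    obtain ⟨y, hy, hybd⟩ := exists_bd_eq s t {e | (φ e = 0 ∨ φ e = 1) ∧ VR s t φ (s e)}
      (bd s t z) (by
        intro f hf
        simp only [Set.mem_ofPred_eq] at hf
        exact sum_mul_eq_zero f _ (fun e he h1 _ => hf e ⟨he, h1⟩) hz0 hzK)
    simp only [Set.mem_ofPred_eq] at hy
    have hmin' := hmin (x + z + y) (by
      intro e he
      have h1 : z e = 0 := hzJB e (by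
        rw [memJB]
        rintro ⟨h2, _⟩
        rcases h2 with h2 | h2
        · rw [he.1] at h2; exact absurd h2 (by decide)
        · rw [he.1] at h2; exact absurd h2.1 (by decide))
      have h2 : y e = 0 := hy e (fun h => he.2 h.2)
      simp [hx e he, h1, h2]) (by
      rw [bd_add, bd_add, hybd]
      funext v
      simp only [Pi.add_apply]
      rw [add_assoc, add_self_zmod2, add_zero])
    have hyB : ∀ e, BB s t φ e → y e = 0 := by
      intro e he
      apply hy
      rintro ⟨h1, h2⟩
      rcases he with he | he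
      · rw [he] at h1; exact absurd h1 (by decide)
      · exact he.2 h2
    have hsub : (univ.filter fun e => BB s t φ e ∧ (x + z + y) e ≠ 0) ⊆
        JB.filter (fun e => z e = 0) := by
      intro e he
      simp only [mem_filter, mem_univ, true_and, Pi.add_apply] at he
      rw [hyB e he.1, add_zero] at he
      have hmem : e ∈ JB := by
        by_contra hne
        rw [hzJB e hne, add_zero] at he
        exact hne ((memJB e).mpr he)
      refine mem_filter.mpr ⟨hmem, ?_⟩
      have hx1 : x e = 1 := by
        rcases zmod2_cases (x e) with h | h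
        · exact absurd h ((memJB e).mp hmem).2
        · exact h
      rcases zmod2_cases (z e) with h | h
      · exact h
      · exfalso
        apply he.2
        rw [hx1, h]
        decide
    have hcard : JB.card ≤ (JB.filter (fun e => z e = 0)).card :=
      hmin'.trans (Finset.card_le_card hsub)
    have heq : JB.filter (fun e => z e = 0) = JB :=
      Finset.eq_of_subset_of_card_le (Finset.filter_subset _ _) hcard
    funext e
    have h3 : e.1 ∈ JB.filter (fun e => z e = 0) := by rw [heq]; exact e.2
    have h4 : z e.1 = 0 := (mem_filter.mp h3).2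
    have h5 : z e.1 = z1 e + z2 e := by simp [z, ext]
    rw [h5] at h4
    exact eq_of_add_eq_zero h4
  have hc1 := Fintype.card_le_of_injective L hinj
  rw [Fintype.card_prod, Fintype.card_fun, Fintype.card_fun, Fintype.card_fun, ZMod.card,
    Fintype.card_coe, Fintype.card_coe, Fintype.card_coe, ← pow_add] at hc1
  exact (Nat.pow_le_pow_iff_right (by norm_num)).mp hc1

lemma bd_eq_of_good (hl : ∀ e, s e ≠ t e) {φ : E → Fin 3} {v : V} {e0 e1 e2 : E}
    (h0 : φ e0 = 0) (h1 : φ e1 = 1) (h2 : φ e2 = 2)
    (i0 : s e0 = v ∨ t e0 = v) (i1 : s e1 = v ∨ t e1 = v) (i2 : s e2 = v ∨ t e2 = v)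
    (u0 : ∀ f, φ f = 0 → (s f = v ∨ t f = v) → f = e0)
    (u1 : ∀ f, φ f = 1 → (s f = v ∨ t f = v) → f = e1)
    (u2 : ∀ f, φ f = 2 → (s f = v ∨ t f = v) → f = e2) (y : E → ZMod 2) :
    bd s t y v = y e0 + y e1 + y e2 := by
  have h01 : e0 ≠ e1 := by rintro rfl; rw [h0] at h1; exact absurd h1 (by decide)
  have h02 : e0 ≠ e2 := by rintro rfl; rw [h0] at h2; exact absurd h2 (by decide)
  have h12 : e1 ≠ e2 := by rintro rfl; rw [h1] at h2; exact absurd h2 (by decide)
  have hco : ∀ e, ((if s e = v then (1 : ZMod 2) else 0) + (if t e = v then 1 else 0))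
      = if (s e = v ∨ t e = v) then 1 else 0 := by
    intro e
    have := hl e
    by_cases h1 : s e = v <;> by_cases h2 : t e = v <;> simp [h1, h2]
    exact absurd (h1.trans h2.symm) this
  unfold bd
  have hsum : ∑ e, y e * ((if s e = v then (1 : ZMod 2) else 0) + (if t e = v then 1 else 0))
      = ∑ e ∈ ({e0, e1, e2} : Finset E), y e := by
    rw [← Finset.sum_subset (Finset.subset_univ ({e0, e1, e2} : Finset E))]
    · refine sum_congr rfl fun e he => ?_
      rw [hco]
      simp only [mem_insert, mem_singleton] at he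
      rcases he with rfl | rfl | rfl
      · simp [i0]
      · simp [i1]
      · simp [i2]
    · intro e _ he
      rw [hco]
      have : ¬ (s e = v ∨ t e = v) := by
        intro hi
        apply he
        simp only [mem_insert, mem_singleton]
        have h3 : ∀ c : Fin 3, c = 0 ∨ c = 1 ∨ c = 2 := by decide
        rcases h3 (φ e) with h | h | h
        · exact Or.inl (u0 e h hi)
        · exact Or.inr (Or.inl (u1 e h hi))
        · exact Or.inr (Or.inr (u2 e h hi))
      simp [this]
  rw [hsum, Finset.sum_insert (by simp [h01, h02]), Finset.sum_pair h12, add_assoc]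

/-- The recolouring theorem: every colouring can be changed, at most doubling the number of
conflict vertices, to one in which the edges not coloured `0` form an even subgraph. -/
theorem recolour (hl : ∀ e, s e ≠ t e) (hc : Cubic s t) (φ : E → Fin 3) :
    ∃ φ' : E → Fin 3, (∀ v, Even (nE s t (fun e => φ' e ≠ 0) v)) ∧
      (univ.filter fun v => ¬ Good s t φ' v).card
        ≤ 2 * (univ.filter fun v => ¬ Good s t φ v).card := by
  obtain ⟨x0, hx0, hx0'⟩ := exists_join hl hc φ
  obtain ⟨x, hxmem, hxmin⟩ := Finset.exists_min_image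
    (univ.filter fun x : E → ZMod 2 => (∀ e, (φ e = 1 ∧ ¬ VR s t φ (s e)) → x e = 0) ∧
      bd s t x = bd s t (ind (fun e => φ e ≠ 0)))
    (fun x => (univ.filter fun e => BB s t φ e ∧ x e ≠ 0).card)
    ⟨x0, by simp only [mem_filter, mem_univ, true_and]; exact ⟨hx0, hx0'⟩⟩
  simp only [mem_filter, mem_univ, true_and] at hxmem hxmin
  obtain ⟨hx, hxg⟩ := hxmem
  have hkey := card_le_of_minimal φ x hx (fun x' h1 h2 => hxmin x' ⟨h1, h2.trans hxg⟩)
  -- facts about good vertices
  have good_edges : ∀ v, Good s t φ v → ∃ e0 e1 e2, φ e0 = 0 ∧ φ e1 = 1 ∧ φ e2 = 2 ∧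
      (s e0 = v ∨ t e0 = v) ∧ (s e1 = v ∨ t e1 = v) ∧ (s e2 = v ∨ t e2 = v) ∧
      (∀ f, φ f = 0 → (s f = v ∨ t f = v) → f = e0) ∧
      (∀ f, φ f = 1 → (s f = v ∨ t f = v) → f = e1) ∧
      (∀ f, φ f = 2 → (s f = v ∨ t f = v) → f = e2) ∧
      x e0 + x e1 + x e2 = 0 := by
    intro v hv
    obtain ⟨e0, h0, i0, u0⟩ := exists_edge_of_good s t hc hv 0
    obtain ⟨e1, h1, i1, u1⟩ := exists_edge_of_good s t hc hv 1
    obtain ⟨e2, h2, i2, u2⟩ := exists_edge_of_good s t hc hv 2
    refine ⟨e0, e1, e2, h0, h1, h2, i0, i1, i2, u0, u1, u2, ?_⟩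
    rw [← bd_eq_of_good hl h0 h1 h2 i0 i1 i2 u0 u1 u2 x, hxg,
      bd_eq_of_good hl h0 h1 h2 i0 i1 i2 u0 u1 u2]
    simp only [ind, h0, h1, h2]
    decide
  let φ' : E → Fin 3 := fun e =>
    if x e = 0 then φ e else if φ e = 0 then (if VR s t φ (s e) then 1 else 2) else 0
  refine ⟨φ', ?_, ?_⟩
  · intro v
    rw [← ZMod.natCast_eq_zero_iff_even, ← bd_ind s t hl]
    have h1 : ind (fun e => φ' e ≠ 0) = x + ind (fun e => φ e ≠ 0) := by
      funext e
      simp only [Pi.add_apply, ind, φ']
      rcases zmod2_cases (x e) with h | h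
      · simp [h]
      · by_cases h2 : φ e = 0
        · by_cases h3 : VR s t φ (s e) <;> simp [h, h2, h3]
        · simp only [h, h2, one_ne_zero, if_false, ne_eq, not_true_eq_false, not_false_eq_true,
            if_true]
          decide
    rw [h1, bd_add, hxg, Pi.add_apply, add_self_zmod2]
  · -- counting
    have hHset : ∀ v, ¬ Good s t φ' v → ¬ Good s t φ v ∨
        (VR s t φ v ∧ Good s t φ v ∧ nE s t (fun e => BB s t φ e ∧ x e ≠ 0) v ≠ 0) := by
      intro v hv
      by_contra hcon
      push Not at hcon
      obtain ⟨hgood, hH⟩ := hcon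
      apply hv
      obtain ⟨e0, e1, e2, h0, h1, h2, i0, i1, i2, u0, u1, u2, hsum⟩ := good_edges v hgood
      have hVRe : ∀ e, (φ e = 0 ∨ φ e = 1) → (s e = v ∨ t e = v) →
          (VR s t φ (s e) ↔ VR s t φ v) := by
        intro e he hi
        rcases hi with hi | hi
        · rw [hi]
        · rw [VR_iff hl he, hi]
      have hcol : (φ' e0 ≠ φ' e1 ∧ φ' e0 ≠ φ' e2 ∧ φ' e1 ≠ φ' e2) := by
        by_cases hVR : VR s t φ v
        · have hn := hH hVR hgood
          rw [nE_eq_zero_iff] at hn
          have hx2 : x e2 = 0 := by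
            by_contra h
            exact hn e2 ⟨Or.inl h2, h⟩ i2
          rw [hx2, add_zero] at hsum
          have hx01 := eq_of_add_eq_zero hsum
          have hv0 := (hVRe e0 (Or.inl h0) i0).mpr hVR
          rcases zmod2_cases (x e1) with h | h
          · simp only [φ', hx2, hx01, h, h0, h1, h2, if_true]
            decide
          · simp only [φ', hx2, hx01, h, h0, h1, h2, if_true, hv0, one_ne_zero, if_false]
            decide
        · have hv1 : ¬ VR s t φ (s e1) := fun h => hVR ((hVRe e1 (Or.inr h1) i1).mp h)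
          have hv0 : ¬ VR s t φ (s e0) := fun h => hVR ((hVRe e0 (Or.inl h0) i0).mp h)
          have hx1 : x e1 = 0 := hx e1 ⟨h1, hv1⟩
          rw [hx1, add_zero] at hsum
          have hx02 := eq_of_add_eq_zero hsum
          rcases zmod2_cases (x e2) with h | h
          · simp only [φ', hx1, hx02, h, h0, h1, h2, if_true]
            decide
          · have h20 : ¬ ((2 : Fin 3) = 0) := by decide
            simp only [φ', hx1, hx02, h, h0, h1, h2, if_true, hv0, one_ne_zero, if_false, h20]
            decide
      intro e f hef he hf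
      have h3 : ∀ c : Fin 3, c = 0 ∨ c = 1 ∨ c = 2 := by decide
      have cover : ∀ e, (s e = v ∨ t e = v) → e = e0 ∨ e = e1 ∨ e = e2 := by
        intro e he
        rcases h3 (φ e) with h | h | h
        · exact Or.inl (u0 e h he)
        · exact Or.inr (Or.inl (u1 e h he))
        · exact Or.inr (Or.inr (u2 e h he))
      rcases cover e he with rfl | rfl | rfl <;> rcases cover f hf with rfl | rfl | rfl
      · exact absurd rfl hef
      · exact hcol.1
      · exact hcol.2.1
      · exact hcol.1.symm
      · exact absurd rfl hef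
      · exact hcol.2.2
      · exact hcol.2.1.symm
      · exact hcol.2.2.symm
      · exact absurd rfl hef
    set JBp : E → Prop := fun e => BB s t φ e ∧ x e ≠ 0 with hJBp
    have hdeg : ∀ v, ¬ VR s t φ v → Good s t φ v → nE s t JBp v ≠ 0 → 2 ≤ nE s t JBp v := by
      intro v hv hg hne
      have heven : Even (nE s t JBp v) := by
        rw [← ZMod.natCast_eq_zero_iff_even, ← bd_ind s t hl]
        obtain ⟨e0, e1, e2, h0, h1, h2, i0, i1, i2, u0, u1, u2, hsum⟩ := good_edges v hg
        rw [bd_eq_of_good hl h0 h1 h2 i0 i1 i2 u0 u1 u2, ← hsum]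
        have hVRe : ∀ e, (φ e = 0 ∨ φ e = 1) → (s e = v ∨ t e = v) →
            ¬ VR s t φ (s e) := by
          intro e he hi
          rcases hi with hi | hi
          · rwa [hi]
          · rw [VR_iff hl he, hi]; exact hv
        have hB0 : BB s t φ e0 := Or.inr ⟨h0, hVRe e0 (Or.inl h0) i0⟩
        have hB2 : BB s t φ e2 := Or.inl h2
        have hx1 : x e1 = 0 := hx e1 ⟨h1, hVRe e1 (Or.inr h1) i1⟩
        have ind_eq : ∀ e, BB s t φ e → ind JBp e = x e := by
          intro e he
          rcases zmod2_cases (x e) with h | h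
          · simp [ind, hJBp, h]
          · simp [ind, hJBp, h, he]
        have hi1 : ind JBp e1 = x e1 := by
          simp [ind, hJBp, hx1]
        rw [ind_eq e0 hB0, ind_eq e2 hB2, hi1]
      rw [Nat.even_iff] at heven
      omega
    have hsumdeg : ∑ v, nE s t JBp v = 2 * (univ.filter JBp).card := by
      convert sum_nE s t hl JBp
    have hlow : ∑ v, ((if (VR s t φ v ∧ Good s t φ v ∧ nE s t JBp v ≠ 0) then 1 else 0)
        + 2 * (if (¬ VR s t φ v ∧ nE s t JBp v ≠ 0) then 1 else 0)
        - (if (¬ VR s t φ v ∧ ¬ Good s t φ v) then 1 else 0)) ≤ ∑ v, nE s t JBp v := by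
      refine Finset.sum_le_sum fun v _ => ?_
      by_cases hv : VR s t φ v
      · by_cases hn : nE s t JBp v = 0
        · simp [hv, hn]
        · by_cases hg : Good s t φ v
          · simp only [hv, hg, hn, ne_eq, not_false_eq_true, and_true, if_true, not_true_eq_false,
              false_and, if_false]
            omega
          · simp [hv, hg]
      · by_cases hn : nE s t JBp v = 0
        · simp [hv, hn]
        · by_cases hg : Good s t φ v
          · have := hdeg v hv hg hn
            simp only [hv, hg, hn, ne_eq, not_false_eq_true, and_true, if_true, not_true_eq_false,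
              false_and, if_false, and_false]
            omega
          · simp only [hv, hg, hn, ne_eq, not_false_eq_true, and_true, if_true,
              false_and, if_false]
            omega
    have hlow2 : ∑ v, ((if (VR s t φ v ∧ Good s t φ v ∧ nE s t JBp v ≠ 0) then 1 else 0)
        + 2 * (if (¬ VR s t φ v ∧ nE s t JBp v ≠ 0) then 1 else 0))
        ≤ ∑ v, nE s t JBp v + ∑ v, (if (¬ VR s t φ v ∧ ¬ Good s t φ v) then 1 else 0) := by
      rw [← Finset.sum_add_distrib]
      refine le_trans ?_ (le_trans (add_le_add_left hlow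
        (∑ v, (if (¬ VR s t φ v ∧ ¬ Good s t φ v) then 1 else 0))) ?_)
      · rw [← Finset.sum_add_distrib]
        refine Finset.sum_le_sum fun v _ => ?_
        omega
      · rw [← Finset.sum_add_distrib]
    rw [Finset.sum_add_distrib, ← Finset.mul_sum, Finset.sum_boole, Finset.sum_boole,
      Finset.sum_boole, hsumdeg] at hlow2
    simp only [Nat.cast_id] at hlow2
    have hRC := two_mul_card_RC hl hc φ
    -- disjoint subsets of the conflict vertices
    have hdisj : (univ.filter (QQ s t φ)).card +
        (univ.filter fun v => ¬ VR s t φ v ∧ ¬ Good s t φ v).card ≤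
        (univ.filter fun v => ¬ Good s t φ v).card := by
      rw [← Finset.card_union_of_disjoint]
      · apply Finset.card_le_card
        intro v hv
        simp only [mem_union, mem_filter, mem_univ, true_and] at hv ⊢
        rcases hv with hv | hv
        · intro hg
          have := nE_of_good s t hc hg 2
          unfold QQ at hv
          rw [this] at hv
          exact absurd hv (by decide)
        · exact hv.2
      · rw [Finset.disjoint_left]
        intro v hv hv'
        simp only [mem_filter, mem_univ, true_and] at hv hv'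
        exact hv'.1 (QQ_VR hv)
    have hfin : (univ.filter fun v => ¬ Good s t φ' v).card ≤
        (univ.filter fun v => ¬ Good s t φ v).card +
        (univ.filter fun v => VR s t φ v ∧ Good s t φ v ∧ nE s t JBp v ≠ 0).card := by
      refine le_trans (Finset.card_le_card ?_) (Finset.card_union_le _ _)
      intro v hv
      simp only [mem_union, mem_filter, mem_univ, true_and] at hv ⊢
      exact hHset v hv
    have hkey' : (univ.filter JBp).card ≤
        (univ.filter fun v => ¬ VR s t φ v ∧ nE s t JBp v ≠ 0).card + (RC s t φ).card := by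
      have h1 : (univ.filter JBp) = (univ.filter fun e => BB s t φ e ∧ x e ≠ 0) := by
        ext e
        simp only [mem_filter, hJBp]
      rw [h1]
      exact hkey
    omega

end

end Pool.Agent.WeakOdd
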