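import Pool.Agent.Lib.MP_0cde83_co.Count

set_option autoImplicit false
set_option linter.unusedSectionVars false

namespace WeakOdd

open Finset Classical

variable {V E : Type} [Fintype V] [Fintype E]

/-- support -/
noncomputable def sp (x : E → ZMod 2) : Finset E := (univ : Finset E).filter (fun e => x e ≠ 0)

/-- the touched points of the quotient -/
noncomputable def tch (s t : E → V) (c : E → Fin 3) (x : E → ZMod 2) : Finset V :=
  (sp x).image (fun e => rho s t c (s e)) ∪ (sp x).image (fun e => rho s t c (t e))

lemma exists_min (s t : E → V) (c : E → Fin 3) : ∃ x y, Good s t c x y ∧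
    ∀ x' y', Good s t c x' y' → (sp x).card ≤ (sp x').card := by
  obtain ⟨x0, y0, h0⟩ := exists_good s t c
  obtain ⟨x, hx, hm⟩ := Finset.exists_min_image
    ((univ : Finset (E → ZMod 2)).filter (fun x => ∃ y, Good s t c x y)) (fun x => (sp x).card)
    ⟨x0, Finset.mem_filter.2 ⟨Finset.mem_univ _, y0, h0⟩⟩
  obtain ⟨_, y, hy⟩ := Finset.mem_filter.1 hx
  exact ⟨x, y, hy, fun x' y' h' => hm x' (Finset.mem_filter.2 ⟨Finset.mem_univ _, y', h'⟩)⟩

/-- rank bound for a minimal pair -/
lemma rank_bound (s t : E → V) (c : E → Fin 3) (x y : E → ZMod 2) (h : Good s t c x y)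
    (hm : ∀ x' y', Good s t c x' y' → (sp x).card ≤ (sp x').card) :
    (sp x).card ≤ (tch s t c x).card := by
  let vec : (sp x) → (tch s t c x) → ZMod 2 :=
    fun e w => dl (rho s t c (s e.1)) w.1 + dl (rho s t c (t e.1)) w.1
  have hli : LinearIndependent (ZMod 2) vec := by
    rw [Fintype.linearIndependent_iff]
    intro g hg
    by_contra hcon
    push Not at hcon
    obtain ⟨i0, hi0⟩ := hcon
    let z : E → ZMod 2 := fun e => if he : e ∈ sp x then g ⟨e, he⟩ else 0
    have hz0 : ∀ e, e ∉ sp x → z e = 0 := fun e he => by simp [z, he]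
    have hz1 : z i0.1 ≠ 0 := by
      have : z i0.1 = g i0 := by simp [z]
      rw [this]; exact hi0
    have push : ∀ w, ∑ v, bd s t z v * dl (rho s t c v) w =
        ∑ e, z e * (dl (rho s t c (s e)) w + dl (rho s t c (t e)) w) := by
      intro w
      simp only [bd, Finset.sum_mul]
      rw [Finset.sum_comm]
      refine Finset.sum_congr rfl fun e _ => ?_
      simp only [mul_assoc]
      rw [← Finset.mul_sum]
      congr 1
      simp [ev, add_mul, Finset.sum_add_distrib]
    have hpz : ∀ w, ∑ v, bd s t z v * dl (rho s t c v) w = 0 := by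
      intro w
      rw [push]
      by_cases hw : w ∈ tch s t c x
      · have h1 := congrFun hg ⟨w, hw⟩
        simp only [Finset.sum_apply, Pi.smul_apply, smul_eq_mul, Pi.zero_apply] at h1
        rw [← h1]
        have h2 : ∑ e, z e * (dl (rho s t c (s e)) w + dl (rho s t c (t e)) w) =
            ∑ e ∈ sp x, z e * (dl (rho s t c (s e)) w + dl (rho s t c (t e)) w) := by
          refine (Finset.sum_subset (Finset.subset_univ _) fun e _ he => ?_).symm
          rw [hz0 e he, zero_mul]
        rw [h2, ← Finset.sum_coe_sort]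
        refine Finset.sum_congr rfl fun e _ => ?_
        simp [z, vec]
      · refine Finset.sum_eq_zero fun e _ => ?_
        by_cases he : e ∈ sp x
        · have h1 : rho s t c (s e) ≠ w := fun h' => hw (by
            simp only [tch, Finset.mem_union, Finset.mem_image]
            exact Or.inl ⟨e, he, h'⟩)
          have h2 : rho s t c (t e) ≠ w := fun h' => hw (by
            simp only [tch, Finset.mem_union, Finset.mem_image]
            exact Or.inr ⟨e, he, h'⟩)
          simp [dl, h1, h2]
        · rw [hz0 e he, zero_mul]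
    obtain ⟨z', hz', hbz⟩ := ker_push s t c (bd s t z) hpz
    have hgood : Good s t c (x + z) (y + z') := by
      refine ⟨fun e he => ?_, fun e he => ?_, ?_⟩
      · refine h.hx e fun h0 => he ?_
        have : e ∉ sp x := by simp [sp, h0]
        simp [h0, hz0 e this]
      · by_cases h1 : y e = 0
        · refine hz' e fun h2 => he ?_
          simp [h1, h2]
        · exact h.hy e h1
      · rw [bd_add, bd_add, hbz]
        have : bd s t x + bd s t z + (bd s t y + bd s t z) =
            (bd s t x + bd s t y) + (bd s t z + bd s t z) := by ring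
        rw [this, fn_add_self, add_zero, h.hb]
    have hlt : (sp (x + z)).card < (sp x).card := by
      refine Finset.card_lt_card ⟨fun e he => ?_, fun hsub => ?_⟩
      · by_contra h1
        have h2 : x e = 0 := by simpa [sp] using h1
        simp [sp, h2, hz0 e h1] at he
      · have h1 := hsub i0.2
        have h2 : x i0.1 ≠ 0 := (Finset.mem_filter.1 i0.2).2
        have h3 : (x + z) i0.1 = 0 := by
          rw [Pi.add_apply, z2_ne h2, z2_ne hz1]; decide
        simp [sp] at h1
        exact h1 h3
    exact absurd (hm _ _ hgood) (by omega)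
  have h1 := hli.fintype_card_le_finrank
  rw [Module.finrank_fintype_fun_eq_card] at h1
  simpa using h1

/-- degree in the support -/
noncomputable def dg (s t : E → V) (x : E → ZMod 2) (v : V) : ℕ :=
  ((univ : Finset E).filter (fun e => x e ≠ 0 ∧ (s e = v ∨ t e = v))).card

lemma sum_dg (s t : E → V) (hne : ∀ e, s e ≠ t e) (x : E → ZMod 2) :
    ∑ v, dg s t x v = 2 * (sp x).card := by
  simp only [dg, Finset.card_filter]
  rw [Finset.sum_comm]
  have : ∀ e, (∑ v, if x e ≠ 0 ∧ (s e = v ∨ t e = v) then 1 else 0) = if x e ≠ 0 then 2 else 0 := by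
    intro e
    by_cases h : x e = 0
    · simp [h]
    · simp only [ne_eq, h, not_false_eq_true, true_and, if_true]
      rw [← Finset.card_filter]
      have : (univ : Finset V).filter (fun v => s e = v ∨ t e = v) = {s e, t e} := by
        ext v; simp [eq_comm]
      rw [this, Finset.card_pair (hne e)]
  rw [Finset.sum_congr rfl fun e _ => this e, ← Finset.sum_filter]
  simp [sp, mul_comm]

/-- the main counting -/
lemma main_count (s t : E → V) (hne : ∀ e, s e ≠ t e) (c : E → Fin 3) (D : Finset V)
    (hD1 : ∀ v, pbc s t c v ≠ 0 → v ∈ D) (hD2 : ∀ v, bd s t (ind (fun e => c e ≠ 1)) v ≠ 0 → v ∈ D)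
    (x y : E → ZMod 2) (h : Good s t c x y)
    (hm : ∀ x' y', Good s t c x' y' → (sp x).card ≤ (sp x').card) :
    ((univ : Finset V).filter (fun v => v ∉ D ∧ bd s t x v ≠ 0)).card ≤ D.card := by
  have hy0 : ∀ v, ¬ Hub s t c v → bd s t y v = 0 := by
    intro v hv
    refine Finset.sum_eq_zero fun e _ => ?_
    by_cases he : y e = 0
    · simp [he]
    · obtain ⟨h1, h2⟩ := h.hy e he
      have h3 : s e ≠ v := fun h' => hv (h' ▸ h2)
      have h4 : t e ≠ v := fun h' => hv (h' ▸ (hub_edge h1).1 h2)
      simp [ev, h3, h4]
  have hout : ∀ v, ¬ Hub s t c v → v ∉ D → bd s t x v = 0 := by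
    intro v hv hvD
    have h1 := congrFun h.hb v
    rw [Pi.add_apply, hy0 v hv, add_zero] at h1
    by_contra h2
    exact hvD (hD2 v (h1 ▸ h2))
  -- bad vertices are hub vertices of positive degree
  have hbad : ((univ : Finset V).filter (fun v => v ∉ D ∧ bd s t x v ≠ 0)).card ≤
      ∑ v ∈ (univ : Finset V).filter (fun v => Hub s t c v), dg s t x v := by
    rw [Finset.card_eq_sum_ones]
    calc ∑ v ∈ (univ : Finset V).filter (fun v => v ∉ D ∧ bd s t x v ≠ 0), 1
        ≤ ∑ v ∈ (univ : Finset V).filter (fun v => v ∉ D ∧ bd s t x v ≠ 0), dg s t x v := by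
          refine Finset.sum_le_sum fun v hv => ?_
          have h1 := (Finset.mem_filter.1 hv).2.2
          rw [bd_card s t hne] at h1
          rcases Nat.eq_zero_or_pos (dg s t x v) with h2 | h2
          · exfalso; apply h1; simp only [dg] at h2; rw [h2]; simp
          · exact h2
      _ ≤ _ := by
          refine Finset.sum_le_sum_of_subset fun v hv => ?_
          simp only [Finset.mem_filter, Finset.mem_univ, true_and] at hv ⊢
          by_contra h1
          exact hv.2 (hout v h1 hv.1)
  have hrank := rank_bound s t c x y h hm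
  have hsum := sum_dg s t hne x
  have hsplit : ∑ v, dg s t x v = ∑ v ∈ (univ : Finset V).filter (fun v => Hub s t c v), dg s t x v +
      ∑ v ∈ (univ : Finset V).filter (fun v => ¬ Hub s t c v), dg s t x v :=
    (Finset.sum_filter_add_sum_filter_not _ _ _).symm
  have hW : (tch s t c x).card = ((tch s t c x).filter (fun v => Hub s t c v)).card +
      ((tch s t c x).filter (fun v => ¬ Hub s t c v)).card :=
    (Finset.card_filter_add_card_filter_not (s := tch s t c x) (fun v => Hub s t c v)).symm
  have hreps := hub_reps s t c D hD1 ((tch s t c x).filter (fun v => Hub s t c v)) (by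
    intro w hw
    obtain ⟨h1, h2⟩ := Finset.mem_filter.1 hw
    refine ⟨h2, ?_⟩
    simp only [tch, Finset.mem_union, Finset.mem_image] at h1
    rcases h1 with ⟨e, _, he⟩ | ⟨e, _, he⟩
    · rw [← he]
      rw [← he] at h2
      exact rho_eq_of_rel (rho_rel s t c (s e)) h2
    · rw [← he]
      rw [← he] at h2
      exact rho_eq_of_rel (rho_rel s t c (t e)) h2)
  have houts : 2 * ((tch s t c x).filter (fun v => ¬ Hub s t c v)).card ≤
      ∑ v ∈ (univ : Finset V).filter (fun v => ¬ Hub s t c v), dg s t x v +
        (D.filter (fun v => ¬ Hub s t c v)).card := by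
    have h1 : ∀ v ∈ (tch s t c x).filter (fun v => ¬ Hub s t c v),
        2 ≤ dg s t x v + (if v ∈ D then 1 else 0) := by
      intro v hv
      obtain ⟨h1, h2⟩ := Finset.mem_filter.1 hv
      have hpos : 0 < dg s t x v := by
        simp only [tch, Finset.mem_union, Finset.mem_image] at h1
        rcases h1 with ⟨e, he, hev⟩ | ⟨e, he, hev⟩
        · have h3 : ¬ Hub s t c (s e) := fun h' => h2 (hev ▸ hub_rho.2 h')
          rw [rho_of_not_hub h3] at hev
          refine Finset.card_pos.2 ⟨e, ?_⟩
          simp only [Finset.mem_filter, Finset.mem_univ, true_and]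
          exact ⟨by simpa [sp] using he, Or.inl hev⟩
        · have h3 : ¬ Hub s t c (t e) := fun h' => h2 (hev ▸ hub_rho.2 h')
          rw [rho_of_not_hub h3] at hev
          refine Finset.card_pos.2 ⟨e, ?_⟩
          simp only [Finset.mem_filter, Finset.mem_univ, true_and]
          exact ⟨by simpa [sp] using he, Or.inr hev⟩
      by_cases hvD : v ∈ D
      · simp only [hvD, if_true]; omega
      · have h3 := hout v h2 hvD
        rw [bd_card s t hne, ZMod.natCast_eq_zero_iff] at h3
        have : 2 ∣ dg s t x v := h3
        simp only [hvD, if_false]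
        omega
    calc 2 * ((tch s t c x).filter (fun v => ¬ Hub s t c v)).card
        = ∑ v ∈ (tch s t c x).filter (fun v => ¬ Hub s t c v), 2 := by simp [mul_comm]
      _ ≤ ∑ v ∈ (tch s t c x).filter (fun v => ¬ Hub s t c v), (dg s t x v + (if v ∈ D then 1 else 0)) :=
          Finset.sum_le_sum h1
      _ ≤ ∑ v ∈ (univ : Finset V).filter (fun v => ¬ Hub s t c v), (dg s t x v + (if v ∈ D then 1 else 0)) := by
          refine Finset.sum_le_sum_of_subset fun v hv => ?_
          simp only [Finset.mem_filter, Finset.mem_univ, true_and] at hv ⊢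
          exact hv.2
      _ = _ := by
          rw [Finset.sum_add_distrib]
          congr 1
          rw [← Finset.card_filter]
          congr 1
          ext v
          simp [and_comm]
  have hDs : D.card = (D.filter (fun v => Hub s t c v)).card + (D.filter (fun v => ¬ Hub s t c v)).card :=
    (Finset.card_filter_add_card_filter_not (s := D) (fun v => Hub s t c v)).symm
  omega

/-- the core theorem in terms of chains -/
theorem core (s t : E → V) (hne : ∀ e, s e ≠ t e) (c : E → Fin 3) (D : Finset V)
    (hD : ∀ v, v ∉ D → ∀ k : Fin 3,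
      ((univ : Finset E).filter (fun e => c e = k ∧ (s e = v ∨ t e = v))).card = 1) :
    ∃ f a : E → ZMod 2, (∀ e, a e ≠ 0 → f e ≠ 0) ∧ (∀ v, bd s t f v = 0) ∧
      ((univ : Finset V).filter (fun v => bd s t a v = 0)).card ≤ 2 * D.card := by
  have hk : ∀ v, v ∉ D → ∀ k : Fin 3, bd s t (ind (fun e => c e = k)) v = 1 := by
    intro v hv k
    rw [bd_card s t hne]
    have h1 := hD v hv k
    have h2 : (univ : Finset E).filter (fun e => ind (fun e => c e = k) e ≠ 0 ∧ (s e = v ∨ t e = v)) =
        (univ : Finset E).filter (fun e => c e = k ∧ (s e = v ∨ t e = v)) := by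
      ext e
      simp only [Finset.mem_filter, Finset.mem_univ, true_and]
      by_cases h3 : c e = k <;> simp [ind, h3]
    rw [h2, h1]; simp
  have hfin : ∀ k : Fin 3, k = 0 ∨ k = 1 ∨ k = 2 := by
    intro k; fin_cases k <;> simp
  have hD1 : ∀ v, pbc s t c v ≠ 0 → v ∈ D := by
    intro v hv
    by_contra hvD
    apply hv
    have h1 : ind (fun e => c e ≠ 0) = ind (fun e => c e = 1) + ind (fun e => c e = 2) := by
      funext e
      rcases hfin (c e) with h3 | h3 | h3 <;> simp [ind, h3]
    rw [pbc, h1, bd_add, Pi.add_apply, hk v hvD, hk v hvD]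
    decide
  have hD2 : ∀ v, bd s t (ind (fun e => c e ≠ 1)) v ≠ 0 → v ∈ D := by
    intro v hv
    by_contra hvD
    apply hv
    have h1 : ind (fun e => c e ≠ 1) = ind (fun e => c e = 0) + ind (fun e => c e = 2) := by
      funext e
      rcases hfin (c e) with h3 | h3 | h3 <;> simp [ind, h3]
    rw [h1, bd_add, Pi.add_apply, hk v hvD, hk v hvD]
    decide
  obtain ⟨x, y, h, hm⟩ := exists_min s t c
  refine ⟨ind (fun e => c e ≠ 1) + x + y, ind (fun e => c e = 0) + x, ?_, ?_, ?_⟩
  · intro e he
    have hy : c e = 0 ∨ (c e = 1 ∧ ¬ Hub s t c (s e)) → y e = 0 := by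
      intro h1
      by_contra h2
      obtain ⟨h3, h4⟩ := h.hy e h2
      rcases h1 with h1 | h1
      · exact h3 h1
      · exact h1.2 h4
    by_cases h0 : x e = 0
    · have h1 : c e = 0 := by
        by_contra h1
        apply he
        simp [ind, h0, h1]
      simp [ind, h0, h1, hy (Or.inl h1)]
    · have h1 := h.hx e h0
      have h2 := z2_ne h0
      rcases h1 with h1 | h1
      · exfalso; apply he
        simp only [Pi.add_apply, ind, h1, h2, if_true]; decide
      · simp [ind, h1.1, h2, hy (Or.inr h1)]
  · intro v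
    rw [add_assoc, bd_add, bd_add, h.hb, fn_add_self]; rfl
  · have h1 := main_count s t hne c D hD1 hD2 x y h hm
    calc ((univ : Finset V).filter (fun v => bd s t (ind (fun e => c e = 0) + x) v = 0)).card
        ≤ (D ∪ (univ : Finset V).filter (fun v => v ∉ D ∧ bd s t x v ≠ 0)).card := by
          refine Finset.card_le_card fun v hv => ?_
          simp only [Finset.mem_filter, Finset.mem_univ, true_and, Finset.mem_union] at hv ⊢
          by_cases hvD : v ∈ D
          · exact Or.inl hvD
          · refine Or.inr ⟨hvD, fun h0 => ?_⟩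
            rw [bd_add, Pi.add_apply, hk v hvD, h0] at hv
            exact absurd hv (by decide)
      _ ≤ D.card + ((univ : Finset V).filter (fun v => v ∉ D ∧ bd s t x v ≠ 0)).card :=
          Finset.card_union_le _ _
      _ ≤ 2 * D.card := by omega

end WeakOdd
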