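import Pool.Agent.Lib.MP_0cde83_co.Basic

set_option autoImplicit false
set_option linter.unusedSectionVars false

/-!
# Weak oddness versus resistance: the recolouring argument
-/

namespace Pool.Agent.WeakOdd

open Finset
open scoped Classical

noncomputable section

variable {V E : Type} [Fintype V] [Fintype E] (s t : E → V)

/-- Indicator of a set of edges. -/
def ind (P : E → Prop) : E → ZMod 2 := fun e => if P e then 1 else 0

/-- Number of edges with property `P` at the vertex `v`. -/
def nE (P : E → Prop) (v : V) : ℕ := (univ.filter fun e => P e ∧ (s e = v ∨ t e = v)).card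

/-- `v` is not a conflict vertex. -/
def Good (φ : E → Fin 3) (v : V) : Prop :=
  ∀ e f, e ≠ f → (s e = v ∨ t e = v) → (s f = v ∨ t f = v) → φ e ≠ φ f

lemma bd_ind (hl : ∀ e, s e ≠ t e) (P : E → Prop) (v : V) :
    bd s t (ind P) v = (nE s t P v : ZMod 2) := by
  have h1 : ∀ e, ind P e * ((if s e = v then (1 : ZMod 2) else 0) + (if t e = v then 1 else 0))
      = if (P e ∧ (s e = v ∨ t e = v)) then 1 else 0 := by
    intro e
    have := hl e
    by_cases hP : P e <;> by_cases h1 : s e = v <;> by_cases h2 : t e = v <;>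
      simp [ind, hP, h1, h2]
    exact absurd (h1.trans h2.symm) this
  unfold bd nE
  rw [Finset.sum_congr rfl (fun e _ => h1 e), Finset.sum_boole]

lemma nE_split (P Q : E → Prop) (v : V) :
    nE s t P v = nE s t (fun e => P e ∧ Q e) v + nE s t (fun e => P e ∧ ¬ Q e) v := by
  unfold nE
  rw [← Finset.card_filter_add_card_filter_not (s := univ.filter fun e => P e ∧ (s e = v ∨ t e = v))
    (p := Q), Finset.filter_filter, Finset.filter_filter]
  congr 2 <;> (ext e; simp only [mem_filter, mem_univ, true_and]; tauto)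

lemma nE_le_of_imp {P Q : E → Prop} (h : ∀ e, P e → Q e) (v : V) : nE s t P v ≤ nE s t Q v := by
  unfold nE
  apply Finset.card_le_card
  intro e he
  simp only [mem_filter, mem_univ, true_and] at he ⊢
  exact ⟨h e he.1, he.2⟩

lemma nE_eq_zero_iff (P : E → Prop) (v : V) :
    nE s t P v = 0 ↔ ∀ e, P e → ¬ (s e = v ∨ t e = v) := by
  unfold nE
  rw [Finset.card_eq_zero, Finset.filter_eq_empty_iff]
  constructor
  · intro h e he h'
    exact h (mem_univ e) ⟨he, h'⟩
  · intro h e _ h'
    exact h e h'.1 h'.2

/-- Sum of the degrees. -/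
lemma sum_nE (hl : ∀ e, s e ≠ t e) (P : E → Prop) :
    ∑ v, nE s t P v = 2 * (univ.filter P).card := by
  unfold nE
  have h1 : ∀ v : V, (univ.filter fun e => P e ∧ (s e = v ∨ t e = v)).card
      = ∑ e ∈ univ.filter P, if (s e = v ∨ t e = v) then 1 else 0 := by
    intro v
    rw [Finset.sum_boole, Finset.filter_filter]
    simp
  rw [Finset.sum_congr rfl (fun v _ => h1 v), Finset.sum_comm]
  have h2 : ∀ e ∈ univ.filter P, ∑ v : V, (if (s e = v ∨ t e = v) then 1 else 0) = 2 := by
    intro e _
    rw [Finset.sum_boole]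
    have : (univ.filter fun v => s e = v ∨ t e = v) = {s e, t e} := by
      ext v
      simp only [mem_filter, mem_univ, true_and, mem_insert, mem_singleton]
      constructor
      · rintro (h | h)
        · exact Or.inl h.symm
        · exact Or.inr h.symm
      · rintro (h | h)
        · exact Or.inl h.symm
        · exact Or.inr h.symm
    rw [this, Finset.card_pair (hl e)]
    rfl
  rw [Finset.sum_congr rfl h2]
  simp [mul_comm]

/-- Degree-three condition. -/
def Cubic : Prop := ∀ v : V, nE s t (fun _ => True) v = 3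

lemma cdeg_sum (hc : Cubic s t) (φ : E → Fin 3) (v : V) :
    nE s t (fun e => φ e = 0) v + nE s t (fun e => φ e = 1) v + nE s t (fun e => φ e = 2) v = 3 := by
  have hv := hc v
  rw [nE_split s t (fun _ => True) (fun e => φ e = 0),
    nE_split s t (fun e => True ∧ ¬ φ e = 0) (fun e => φ e = 1)] at hv
  have h1 : (fun e => True ∧ φ e = 0) = (fun e => φ e = 0) := by funext e; simp
  have h2 : (fun e => (True ∧ ¬ φ e = 0) ∧ φ e = 1) = (fun e => φ e = 1) := by
    funext e
    apply propext
    constructor
    · rintro ⟨_, h⟩; exact h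
    · intro h
      refine ⟨⟨trivial, ?_⟩, h⟩
      rw [h]; decide
  have h3 : (fun e => (True ∧ ¬ φ e = 0) ∧ ¬ φ e = 1) = (fun e => φ e = 2) := by
    funext e
    apply propext
    constructor
    · rintro ⟨⟨_, h⟩, h'⟩
      revert h h'
      generalize φ e = c
      revert c
      decide
    · intro h
      rw [h]
      decide
  rw [h1, h2, h3] at hv
  omega

/-- A vertex with all three colour degrees equal to one is not a conflict vertex. -/
lemma good_of_nE (φ : E → Fin 3) (v : V) (h : ∀ c : Fin 3, nE s t (fun e => φ e = c) v ≤ 1) :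
    Good s t φ v := by
  intro e f hef he hf hφ
  have h1 := h (φ e)
  unfold nE at h1
  rw [Finset.card_le_one] at h1
  apply hef
  apply h1 e _ f _
  · simp [he]
  · simp [hf, hφ]

lemma nE_le_of_good {φ : E → Fin 3} {v : V} (h : Good s t φ v) (c : Fin 3) :
    nE s t (fun e => φ e = c) v ≤ 1 := by
  unfold nE
  rw [Finset.card_le_one]
  intro e he f hf
  simp only [mem_filter, mem_univ, true_and] at he hf
  by_contra hne
  exact h e f hne he.2 hf.2 (he.1.trans hf.1.symm)

lemma nE_of_good (hc : Cubic s t) {φ : E → Fin 3} {v : V} (h : Good s t φ v) (c : Fin 3) :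
    nE s t (fun e => φ e = c) v = 1 := by
  have h3 := cdeg_sum s t hc φ v
  have h0 := nE_le_of_good s t h 0
  have h1 := nE_le_of_good s t h 1
  have h2 := nE_le_of_good s t h 2
  fin_cases c
  · show nE s t (fun e => φ e = 0) v = 1
    omega
  · show nE s t (fun e => φ e = 1) v = 1
    omega
  · show nE s t (fun e => φ e = 2) v = 1
    omega

/-- If the third colour has odd degree at a conflict vertex, the other two have even degree. -/
lemma parity_of_not_good (hc : Cubic s t) {φ : E → Fin 3} {v : V} (h : ¬ Good s t φ v)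
    (h2 : Odd (nE s t (fun e => φ e = 2) v)) :
    Even (nE s t (fun e => φ e = 0) v) ∧ Even (nE s t (fun e => φ e = 1) v) := by
  have h3 := cdeg_sum s t hc φ v
  by_contra hcon
  apply h
  apply good_of_nE
  have key : nE s t (fun e => φ e = 0) v = 1 ∧ nE s t (fun e => φ e = 1) v = 1 ∧
      nE s t (fun e => φ e = 2) v = 1 := by
    generalize nE s t (fun e => φ e = 0) v = a at *
    generalize nE s t (fun e => φ e = 1) v = b at *
    generalize nE s t (fun e => φ e = 2) v = c at *
    rw [Nat.odd_iff] at h2
    rw [Nat.even_iff, Nat.even_iff] at hcon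
    omega
  intro c
  fin_cases c
  · show nE s t (fun e => φ e = 0) v ≤ 1
    omega
  · show nE s t (fun e => φ e = 1) v ≤ 1
    omega
  · show nE s t (fun e => φ e = 2) v ≤ 1
    omega

/-- The unique edge of a given colour at a non-conflict vertex. -/
lemma exists_edge_of_good (hc : Cubic s t) {φ : E → Fin 3} {v : V} (h : Good s t φ v) (c : Fin 3) :
    ∃ e, φ e = c ∧ (s e = v ∨ t e = v) ∧ ∀ f, φ f = c → (s f = v ∨ t f = v) → f = e := by
  have h1 := nE_of_good s t hc h c
  unfold nE at h1
  rw [Finset.card_eq_one] at h1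
  obtain ⟨e, he⟩ := h1
  have he' : ∀ f, (φ f = c ∧ (s f = v ∨ t f = v)) ↔ f = e := by
    intro f
    have := Finset.ext_iff.mp he f
    simpa only [mem_filter, mem_univ, true_and, mem_singleton] using this
  have hmem := (he' e).mpr rfl
  exact ⟨e, hmem.1, hmem.2, fun f hf hf' => (he' f).mp ⟨hf, hf'⟩⟩

end

end Pool.Agent.WeakOdd
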