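import Pool.Agent.Lib.MP_0cde83_co.Recolour

set_option autoImplicit false
set_option linter.unusedSectionVars false

/-!
# Weak oddness versus resistance: components of the graph of the first two colours
-/

namespace Pool.Agent.WeakOdd

open Finset
open scoped Classical

noncomputable section

variable {V E : Type} [Fintype V] [Fintype E] (s t : E → V)

/-- The red graph: edges of colour 0 or 1. -/
def red (φ : E → Fin 3) : SimpleGraph V :=
  SimpleGraph.fromRel (fun x y : V => ∃ e, (φ e = 0 ∨ φ e = 1) ∧ s e = x ∧ t e = y)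

/-- Vertices at which colour 2 has even degree. -/
def QQ (φ : E → Fin 3) (v : V) : Prop := Even (nE s t (fun e => φ e = 2) v)

/-- Vertices in a red component containing a vertex of `QQ`. -/
def VR (φ : E → Fin 3) (v : V) : Prop := ∃ u, QQ s t φ u ∧ (red s t φ).Reachable u v

/-- The red components containing a vertex of `QQ`. -/
def RC (φ : E → Fin 3) : Finset (red s t φ).ConnectedComponent :=
  (univ.filter (QQ s t φ)).image (red s t φ).connectedComponentMk

variable {s t}

lemma red_adj (hl : ∀ e, s e ≠ t e) {φ : E → Fin 3} {e : E} (h : φ e = 0 ∨ φ e = 1) :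
    (red s t φ).Adj (s e) (t e) := by
  unfold red
  rw [SimpleGraph.fromRel_adj]
  exact ⟨hl e, Or.inl ⟨e, h, rfl, rfl⟩⟩

lemma VR_of_reachable {φ : E → Fin 3} {u v : V} (h : VR s t φ u)
    (huv : (red s t φ).Reachable u v) : VR s t φ v := by
  obtain ⟨w, hw, hwu⟩ := h
  exact ⟨w, hw, hwu.trans huv⟩

lemma VR_iff (hl : ∀ e, s e ≠ t e) {φ : E → Fin 3} {e : E} (h : φ e = 0 ∨ φ e = 1) :
    VR s t φ (s e) ↔ VR s t φ (t e) :=
  ⟨fun h' => VR_of_reachable h' (red_adj hl h).reachable,
    fun h' => VR_of_reachable h' (red_adj hl h).symm.reachable⟩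

lemma QQ_VR {φ : E → Fin 3} {v : V} (h : QQ s t φ v) : VR s t φ v :=
  ⟨v, h, SimpleGraph.Reachable.refl v⟩

/-- Constancy of a function on a red component. -/
lemma const_of_reachable {φ : E → Fin 3} (f : V → ZMod 2)
    (hf : ∀ e, (φ e = 0 ∨ φ e = 1) → VR s t φ (s e) → VR s t φ (t e) → f (s e) = f (t e))
    {u v : V} (hu : VR s t φ u) (h : (red s t φ).Reachable u v) : f u = f v := by
  obtain ⟨p⟩ := h
  induction p with
  | nil => rfl
  | @cons a b c hab p ih =>
    have hb : VR s t φ b := VR_of_reachable hu hab.reachable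
    rw [← ih hb]
    unfold red at hab
    rw [SimpleGraph.fromRel_adj] at hab
    obtain ⟨_, ⟨e, he, h1, h2⟩ | ⟨e, he, h1, h2⟩⟩ := hab
    · rw [← h1, ← h2]
      exact hf e he (h1 ▸ hu) (h2 ▸ hb)
    · rw [← h1, ← h2]
      exact (hf e he (h1 ▸ hb) (h2 ▸ hu)).symm

lemma mem_RC_iff {φ : E → Fin 3} {v : V} :
    (red s t φ).connectedComponentMk v ∈ RC s t φ ↔ VR s t φ v := by
  unfold RC VR
  rw [Finset.mem_image]
  constructor
  · rintro ⟨u, hu, huv⟩
    simp only [mem_filter, mem_univ, true_and] at hu
    exact ⟨u, hu, SimpleGraph.ConnectedComponent.exact huv⟩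
  · rintro ⟨u, hu, huv⟩
    exact ⟨u, by simp [hu], SimpleGraph.ConnectedComponent.sound huv⟩

/-- A pairing that vanishes because the second factor has sum zero on every red component. -/
lemma sum_mul_eq_zero {φ : E → Fin 3} (f g : V → ZMod 2)
    (hf : ∀ e, (φ e = 0 ∨ φ e = 1) → VR s t φ (s e) → VR s t φ (t e) → f (s e) = f (t e))
    (hg0 : ∀ v, ¬ VR s t φ v → g v = 0)
    (hgK : ∀ K ∈ RC s t φ,
      ∑ v ∈ univ.filter (fun v => (red s t φ).connectedComponentMk v = K), g v = 0) :
    ∑ v, f v * g v = 0 := by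
  have h1 : ∑ v, f v * g v = ∑ v ∈ univ.filter (VR s t φ), f v * g v := by
    rw [Finset.sum_filter]
    refine sum_congr rfl fun v _ => ?_
    by_cases hv : VR s t φ v
    · simp [hv]
    · simp [hv, hg0 v hv]
  rw [h1, ← Finset.sum_fiberwise_of_maps_to
    (s := univ.filter (VR s t φ)) (t := RC s t φ) (g := (red s t φ).connectedComponentMk)
    (by intro v hv; simp only [mem_filter, mem_univ, true_and] at hv; exact mem_RC_iff.mpr hv)]
  refine Finset.sum_eq_zero fun K hK => ?_
  obtain ⟨w, rfl⟩ := K.exists_rep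
  have hw : VR s t φ w := mem_RC_iff.mp hK
  have h2 : ∀ v ∈ (univ.filter (VR s t φ)).filter
      (fun v => (red s t φ).connectedComponentMk v = (red s t φ).connectedComponentMk w),
      f v * g v = f w * g v := by
    intro v hv
    simp only [mem_filter, mem_univ, true_and] at hv
    rw [const_of_reachable f hf hv.1 (SimpleGraph.ConnectedComponent.exact hv.2)]
  have h3 : (univ.filter (VR s t φ)).filter
      (fun v => (red s t φ).connectedComponentMk v = (red s t φ).connectedComponentMk w)
      = univ.filter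
      (fun v => (red s t φ).connectedComponentMk v = (red s t φ).connectedComponentMk w) := by
    ext v
    simp only [mem_filter, mem_univ, true_and, and_iff_right_iff_imp]
    intro hv
    exact mem_RC_iff.mp (hv ▸ hK)
  have h4 : ∑ v ∈ (univ.filter (VR s t φ)).filter
      (fun v => (red s t φ).connectedComponentMk v = (red s t φ).connectedComponentMk w),
      f v * g v = f w * ∑ v ∈ univ.filter
      (fun v => (red s t φ).connectedComponentMk v = (red s t φ).connectedComponentMk w), g v := by
    rw [Finset.sum_congr rfl h2, h3, Finset.mul_sum]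
  have h5 : ∑ v ∈ univ.filter
      (fun v => (red s t φ).connectedComponentMk v = (red s t φ).connectedComponentMk w), g v = 0 :=
    hgK _ hK
  exact h4.trans (by rw [h5, mul_zero])

end

end Pool.Agent.WeakOdd
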